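import Pool.Agent.helper77.PV.SpecB

/-! Row pv:QCL (MP_376aaf_an): the class of the idempotent q_t is constant along paths. -/

set_option autoImplicit false

open scoped Matrix Topology
open Filter

namespace Pool.Agent.PV

open Pool.Agent.CZ

attribute [local instance] Matrix.linftyOpNormedRing Matrix.linftyOpNormedAlgebra

theorem QCL_inv {R : Type} [NormedRing R] [CompleteSpace R] {T : Type} [TopologicalSpace T]
    (L : T → Rˣ) (h : Continuous fun t => ((L t : Rˣ) : R)) :
    Continuous fun t => (((L t)⁻¹ : Rˣ) : R) := by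
  rw [continuous_iff_continuousAt]
  intro t
  have h1 : ContinuousAt (fun s => Ring.inverse ((L s : Rˣ) : R)) t :=
    ContinuousAt.comp (f := fun s => ((L s : Rˣ) : R)) (g := Ring.inverse)
      (NormedRing.inverse_continuousAt (L t)) h.continuousAt
  simpa using h1

theorem QCL (hQDM : QDM_stmt) (hK0P : K0P_stmt) : QCL_stmt := by
  intro B A _ _ _ _ _ _ al io u c hZ κ _ _ a b L hL h0 h1
  have cio : Continuous io :=
    AddMonoidHomClass.continuous_of_bound io 1 (fun x => by rw [hZ.isoA, one_mul])
  have ccn : Continuous (c (-1)) :=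
    AddMonoidHomClass.continuous_of_bound (c (-1)) 1 (fun x => by rw [one_mul]; exact hZ.cnorm _ _)
  have cal : Continuous al.symm :=
    AddMonoidHomClass.continuous_of_bound al.symm 1 (fun x => by
      rw [one_mul, ← hZ.isoB (al.symm x), AlgEquiv.apply_symm_apply])
  have hLc : Continuous fun t => ((L t : (Matrix κ κ A)ˣ) : Matrix κ κ A) := by
    have e : (fun t => ((L t : (Matrix κ κ A)ˣ) : Matrix κ κ A)) =
        fun t => (a t).map io + (b t).map io * (uM κ u : Matrix κ κ A) := funext hL
    rw [e]
    exact (a.continuous.matrix_map cio).add ((b.continuous.matrix_map cio).mul continuous_const)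
  have hLi : Continuous fun t => (((L t)⁻¹ : (Matrix κ κ A)ˣ) : Matrix κ κ A) :=
    @QCL_inv (Matrix κ κ A) _ (inferInstance : CompleteSpace (κ → κ → A)) _ _ L hLc
  have hq : Continuous fun t => qL al c (b t) (L t) :=
    (hLi.matrix_map ccn).mul (b.continuous.matrix_map cal)
  exact hK0P B κ ⟨fun t => qL al c (b t) (L t), hq⟩
    (fun t => (hQDM B A al io u c hZ κ (a t) (b t) (L t) (hL t)).qq)

end Pool.Agent.PV
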